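import Pool.Agent.Work.MP_2738db_nt_C.Interface

set_option autoImplicit false

/-!
Block CLS (helper96): few integers have two close factors.
-/

open Finset

namespace Pool.Agent.Work.MP_2738db_nt_C.helper96

lemma exp_bound (N : ℕ) (hN : 2 ≤ N) :
    Real.exp (1 / Real.log N) - 1 ≤ 8 / Real.log N := by
  have hN' : (2 : ℝ) ≤ N := by exact_mod_cast hN
  have hlog2 : (0.6931471803 : ℝ) < Real.log 2 := Real.log_two_gt_d9
  have hlog : Real.log 2 ≤ Real.log N := Real.log_le_log (by norm_num) hN'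
  obtain ⟨x, hx⟩ : ∃ x : ℝ, x = 1 / Real.log N := ⟨_, rfl⟩
  have hx0 : 0 < x := by rw [hx]; exact div_pos one_pos (by linarith)
  have hx1 : x ≤ 2 := by
    rw [hx, div_le_iff₀ (by linarith)]; linarith
  have h8 : (8 : ℝ) / Real.log N = 8 * x := by rw [hx]; ring
  rw [h8, ← hx]
  -- `exp x - 1 ≤ x exp x`
  have h1 : Real.exp x - 1 ≤ x * Real.exp x := by
    have := Real.add_one_le_exp (-x)
    have h2 : Real.exp x * Real.exp (-x) = 1 := by rw [← Real.exp_add]; simp
    have h3 := mul_le_mul_of_nonneg_left this (Real.exp_pos x).le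
    rw [h2] at h3
    nlinarith
  have h4 : Real.exp x ≤ Real.exp 2 := Real.exp_le_exp.mpr hx1
  have h5 : Real.exp 2 ≤ 8 := by
    have h6 : Real.exp 2 = Real.exp 1 * Real.exp 1 := by rw [← Real.exp_add]; norm_num
    have h7 := Real.exp_one_lt_d9
    have h8 := Real.exp_pos 1
    rw [h6]
    nlinarith
  nlinarith [mul_le_mul_of_nonneg_left (h4.trans h5) hx0.le]

theorem cls : Stmt_Cls := by
  classical
  refine ⟨8, fun N hN => ?_⟩
  have hN' : (2 : ℝ) ≤ N := by exact_mod_cast hN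
  have hlog2 : (0.6931471803 : ℝ) < Real.log 2 := Real.log_two_gt_d9
  have hlog : Real.log 2 ≤ Real.log N := Real.log_le_log (by norm_num) hN'
  have hL : 0 < Real.log N := by linarith
  obtain ⟨s, hs⟩ : ∃ s, s = Nat.sqrt N := ⟨_, rfl⟩
  let F : Finset (ℕ × ℕ) :=
    (Icc 1 s).biUnion (fun u => (Icc 1 ⌊8 * (u : ℝ) / Real.log N⌋₊).image (fun w => (u, w)))
  have hsub : {c : ℕ | 1 ≤ c ∧ c ≤ N ∧ ∃ u v : ℕ, c = u * v ∧ 1 ≤ u ∧ u < v ∧
      Real.log N * (Real.log v - Real.log u) < 1} ⊆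
      ((F.image (fun p => p.1 * (p.1 + p.2)) : Finset ℕ) : Set ℕ) := by
    rintro c ⟨_, hcN, u, v, rfl, hu, huv, hlt⟩
    rw [Finset.coe_image]
    refine ⟨(u, v - u), ?_, ?_⟩
    · simp only [F, Finset.coe_biUnion, Set.mem_iUnion, Finset.coe_image, Set.mem_image,
        Finset.mem_coe, Finset.mem_Icc, exists_prop]
      refine ⟨u, ⟨hu, ?_⟩, v - u, ⟨by omega, ?_⟩, rfl⟩
      · rw [hs, Nat.le_sqrt]
        exact le_trans (Nat.mul_le_mul_left u huv.le) hcN
      · apply Nat.le_floor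
        have hu' : (0 : ℝ) < u := by exact_mod_cast hu
        have hv' : (0 : ℝ) < v := by
          have : 0 < v := by omega
          exact_mod_cast this
        have h1 : Real.log v - Real.log u < 1 / Real.log N := by
          rw [lt_div_iff₀ hL]; linarith
        have h2 : Real.log v < Real.log (u * Real.exp (1 / Real.log N)) := by
          rw [Real.log_mul hu'.ne' (Real.exp_pos _).ne', Real.log_exp]
          linarith
        have h3 : (v : ℝ) < u * Real.exp (1 / Real.log N) :=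
          (Real.log_lt_log_iff hv' (by positivity)).mp h2
        have h4 := exp_bound N hN
        rw [Nat.cast_sub huv.le]
        have h5 : (u : ℝ) * (Real.exp (1 / Real.log N) - 1) ≤ u * (8 / Real.log N) :=
          mul_le_mul_of_nonneg_left h4 hu'.le
        have h6 : (u : ℝ) * (8 / Real.log N) = 8 * u / Real.log N := by ring
        linarith
    · show u * (u + (v - u)) = u * v
      congr 1
      omega
  have hcard : (({c : ℕ | 1 ≤ c ∧ c ≤ N ∧ ∃ u v : ℕ, c = u * v ∧ 1 ≤ u ∧ u < v ∧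
      Real.log N * (Real.log v - Real.log u) < 1}.ncard : ℕ) : ℝ) ≤
      ∑ u ∈ Icc 1 s, 8 * (u : ℝ) / Real.log N := by
    have h1 : {c : ℕ | 1 ≤ c ∧ c ≤ N ∧ ∃ u v : ℕ, c = u * v ∧ 1 ≤ u ∧ u < v ∧
      Real.log N * (Real.log v - Real.log u) < 1}.ncard ≤
      (F.image (fun p => p.1 * (p.1 + p.2))).card := by
      have := Set.ncard_le_ncard hsub (Finset.finite_toSet _)
      rwa [Set.ncard_coe_finset] at this
    have h2 : (F.image (fun p => p.1 * (p.1 + p.2))).card ≤ F.card := Finset.card_image_le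
    have h3 : F.card ≤ ∑ u ∈ Icc 1 s, ⌊8 * (u : ℝ) / Real.log N⌋₊ := by
      refine Finset.card_biUnion_le.trans (Finset.sum_le_sum (fun u _ => ?_))
      refine Finset.card_image_le.trans ?_
      rw [Nat.card_Icc]
      omega
    have h4 : (({c : ℕ | 1 ≤ c ∧ c ≤ N ∧ ∃ u v : ℕ, c = u * v ∧ 1 ≤ u ∧ u < v ∧
      Real.log N * (Real.log v - Real.log u) < 1}.ncard : ℕ) : ℝ) ≤
      ((∑ u ∈ Icc 1 s, ⌊8 * (u : ℝ) / Real.log N⌋₊ : ℕ) : ℝ) := by
      exact_mod_cast h1.trans (h2.trans h3)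
    refine h4.trans ?_
    rw [Nat.cast_sum]
    exact Finset.sum_le_sum (fun u _ => Nat.floor_le (by positivity))
  refine hcard.trans ?_
  have h1 : ∑ u ∈ Icc 1 s, 8 * (u : ℝ) / Real.log N ≤ ∑ u ∈ Icc 1 s, 8 * (s : ℝ) / Real.log N := by
    apply Finset.sum_le_sum
    intro u hu
    rw [Finset.mem_Icc] at hu
    have : (u : ℝ) ≤ s := by exact_mod_cast hu.2
    gcongr
  refine h1.trans ?_
  rw [Finset.sum_const, Nat.card_Icc, Nat.add_sub_cancel, nsmul_eq_mul]
  have h2 : (s : ℝ) * s ≤ N := by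
    have : s * s ≤ N := by rw [hs]; exact Nat.sqrt_le N
    exact_mod_cast this
  have h3 : (s : ℝ) * (8 * s / Real.log N) = 8 * (s * s) / Real.log N := by ring
  rw [h3]
  gcongr

end Pool.Agent.Work.MP_2738db_nt_C.helper96
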